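import Pool.Agent.QSN.StmtsD
import Pool.Agent.Helper10_QSX.FIN

set_option autoImplicit false

/-! # Squad QSN, row SLF: the classification -/

namespace Pool.Agent.QSN.H36

open Matrix Finset Pool.Agent.QSX

theorem slf (wkx : WkxStmt) (cvm : CvmStmt) (msd : MsdStmt) (sls : SlsStmt) (slz : SlzStmt)
    (emb : EmbStmt) (len : LenStmt) : SlfStmt := by
  intro i j n m hn
  obtain ⟨s0, s1, s2⟩ := sls
  have hms : Nonempty (MS (SLd i n)) := by
    refine cvm _ ?_
    fin_cases i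
    · exact msd 1 n _ (by norm_num) hn s0
    · exact msd 2 n _ (by norm_num) hn s1
    · exact msd 4 n _ (by norm_num) hn s2
  obtain ⟨h1, h2⟩ := slz i j n m hn
  have key : QE (SLd i n) (SLd j m) → bnd i j n ≤ m := fun h => h1 (wkx _ _ hms h)
  refine ⟨⟨key, ?_⟩, ?_, ?_⟩
  · intro h
    obtain ⟨f, hf⟩ := (emb _ _ (h2 h)).2 ℝ
    exact ⟨ℝ, inferInstance, inferInstance, f, hf⟩
  · rintro ⟨f, hf⟩
    exact key ⟨ℝ, inferInstance, inferInstance, _, Pool.Agent.QSX.H10.qie_pair len hf ℝ⟩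
  · intro h
    exact (emb _ _ (h2 h)).1

end Pool.Agent.QSN.H36
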